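import Pool.Agent.Y45.MON.LStm

/-!
# Project MON, job LG5b: the logical core implies the statement about subvarieties
-/

set_option autoImplicit false

namespace Pool.Agent.Y578.MON

open Pool.Agent.Y45.MON

/-- the words with pairwise disjoint sets of letters, one after the other -/
def ren (Ws : List (List (ℕ × Bool))) : List (ℕ × Bool) :=
  (List.range Ws.length).flatMap
    (fun k => (Ws.getD k []).map (fun s => (Nat.pair k s.1, s.2)))

theorem ren_primrec : Primrec ren := by
  unfold ren
  refine Primrec.list_flatMap (Primrec.list_range.comp Primrec.list_length) ?_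
  refine Primrec.list_map (f := fun (x : List (List (ℕ × Bool)) × ℕ) => x.1.getD x.2 [])
    (g := fun (x : List (List (ℕ × Bool)) × ℕ) (s : ℕ × Bool) => (Nat.pair x.2 s.1, s.2)) ?_ ?_
  · exact (Primrec.list_getD []).comp Primrec.fst Primrec.snd
  · refine Primrec.pair ?_ (Primrec.snd.comp Primrec.snd)
    exact Primrec₂.natPair.comp (Primrec.snd.comp Primrec.fst) (Primrec.fst.comp Primrec.snd)

/-- fully invariant -/
def FI (N : Subgroup (FreeGroup ℕ)) : Prop :=
  ∀ f : FreeGroup ℕ →* FreeGroup ℕ, ∀ x ∈ N, f x ∈ N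

theorem mk_flatMap (l : List ℕ) (g : ℕ → List (ℕ × Bool)) :
    FreeGroup.mk (l.flatMap g) = (l.map (fun k => FreeGroup.mk (g k))).prod := by
  induction l with
  | nil => simp [FreeGroup.one_eq_mk]
  | cons a l ih =>
    rw [List.flatMap_cons, List.map_cons, List.prod_cons, ← ih, FreeGroup.mul_mk]

/-- rename the letters -/
theorem map_mk_pair (k : ℕ) (W : List (ℕ × Bool)) :
    FreeGroup.map (Nat.pair k) (FreeGroup.mk W) =
      FreeGroup.mk (W.map (fun s => (Nat.pair k s.1, s.2))) := by
  rw [FreeGroup.map.mk]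

/-- select the letters of the `k`-th word -/
noncomputable def sel (k : ℕ) : FreeGroup ℕ →* FreeGroup ℕ :=
  FreeGroup.lift (fun m => if (Nat.unpair m).1 = k then FreeGroup.of (Nat.unpair m).2 else 1)

theorem sel_same (k : ℕ) (x : FreeGroup ℕ) : sel k (FreeGroup.map (Nat.pair k) x) = x := by
  have : (sel k).comp (FreeGroup.map (Nat.pair k)) = MonoidHom.id _ := by
    ext i
    simp [sel]
  exact DFunLike.congr_fun this x

theorem sel_other {j k : ℕ} (h : j ≠ k) (x : FreeGroup ℕ) :
    sel k (FreeGroup.map (Nat.pair j) x) = 1 := by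
  have : (sel k).comp (FreeGroup.map (Nat.pair j)) = 1 := by
    ext i
    simp [sel, h]
  exact DFunLike.congr_fun this x

theorem prod_sel {G : Type} [Monoid G] (k : ℕ) (x : ℕ → G) :
    ∀ l : List ℕ, l.Nodup → (l.map (fun j => if j = k then x j else 1)).prod =
      if k ∈ l then x k else 1 := by
  intro l
  induction l with
  | nil => intro _; simp
  | cons a l ih =>
    intro h
    rw [List.nodup_cons] at h
    rw [List.map_cons, List.prod_cons, ih h.2]
    by_cases hak : a = k
    · subst hak
      rw [if_pos rfl, if_neg h.1, if_pos (List.mem_cons_self), mul_one]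
    · rw [if_neg hak, one_mul]
      by_cases hk : k ∈ l
      · rw [if_pos hk, if_pos (List.mem_cons_of_mem _ hk)]
      · rw [if_neg hk, if_neg]
        intro h'
        rcases List.mem_cons.1 h' with h' | h'
        · exact hak h'.symm
        · exact hk h'

theorem mem_ren {N : Subgroup (FreeGroup ℕ)} (hN : FI N) (Ws : List (List (ℕ × Bool))) :
    FreeGroup.mk (ren Ws) ∈ N ↔ ∀ W ∈ Ws, FreeGroup.mk W ∈ N := by
  have e : FreeGroup.mk (ren Ws) = ((List.range Ws.length).map
      (fun k => FreeGroup.map (Nat.pair k) (FreeGroup.mk (Ws.getD k [])))).prod := by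
    rw [ren, mk_flatMap]
    simp only [map_mk_pair]
  rw [e]
  constructor
  · intro h W hW
    obtain ⟨k, hk, rfl⟩ := List.getElem_of_mem hW
    have h1 := hN (sel k) _ h
    rw [map_list_prod, List.map_map] at h1
    have h2 : ((List.range Ws.length).map ((sel k) ∘ (fun k =>
        FreeGroup.map (Nat.pair k) (FreeGroup.mk (Ws.getD k []))))).prod =
        ((List.range Ws.length).map
          (fun j => if j = k then FreeGroup.mk (Ws.getD j []) else 1)).prod := by
      congr 1
      refine List.map_congr_left fun j _ => ?_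
      rw [Function.comp_apply]
      by_cases hj : j = k
      · subst hj
        rw [if_pos rfl, sel_same]
      · rw [if_neg hj, sel_other hj]
    rw [h2, prod_sel k (fun j => FreeGroup.mk (Ws.getD j [])) _ List.nodup_range,
      if_pos (List.mem_range.2 hk)] at h1
    rwa [List.getD_eq_getElem _ _ hk] at h1
  · intro h
    refine Subgroup.list_prod_mem _ ?_
    intro x hx
    obtain ⟨k, hk, rfl⟩ := List.mem_map.1 hx
    have hk' := List.mem_range.1 hk
    rw [List.getD_eq_getElem _ _ hk']
    exact hN _ _ (h _ (List.getElem_mem hk'))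

theorem FI.normal {N : Subgroup (FreeGroup ℕ)} (hN : FI N) : N.Normal :=
  ⟨fun n hn g => hN (MulAut.conj g).toMonoidHom n hn⟩

/-- the quotient satisfies the words in `N` -/
theorem quot_law {N : Subgroup (FreeGroup ℕ)} [N.Normal] (hN : FI N) {W : List (ℕ × Bool)}
    (hW : FreeGroup.mk W ∈ N) (f : ℕ → FreeGroup ℕ ⧸ N) :
    FreeGroup.lift f (FreeGroup.mk W) = 1 := by
  choose g hg using fun i => QuotientGroup.mk_surjective (f i)
  have e : FreeGroup.lift f = (QuotientGroup.mk' N).comp (FreeGroup.lift g) := by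
    ext i
    simp [hg]
  rw [e, MonoidHom.comp_apply, QuotientGroup.mk'_apply, QuotientGroup.eq_one_iff]
  exact hN _ _ hW

/-- exponent sum -/
noncomputable def es (i : ℕ) : FreeGroup ℕ →* Multiplicative ℤ :=
  FreeGroup.lift (fun j => if j = i then Multiplicative.ofAdd 1 else 1)

theorem es_of (i j : ℕ) : es i (FreeGroup.of j) = if j = i then Multiplicative.ofAdd 1 else 1 := by
  simp [es]

theorem comm_formula {A : Type} [CommGroup A] (φ : FreeGroup ℕ →* A) (g : FreeGroup ℕ) :
    ∃ s : Finset ℕ, ∀ t : Finset ℕ, s ⊆ t →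
      φ g = ∏ i ∈ t, (φ (FreeGroup.of i)) ^ (Multiplicative.toAdd (es i g)) := by
  have key : ∀ (j : ℕ), ∃ s : Finset ℕ, ∀ t : Finset ℕ, s ⊆ t →
      φ (FreeGroup.of j) = ∏ i ∈ t, (φ (FreeGroup.of i)) ^
        (Multiplicative.toAdd (es i (FreeGroup.of j))) := by
    intro j
    refine ⟨{j}, fun t ht => ?_⟩
    rw [Finset.prod_eq_single j]
    · rw [es_of, if_pos rfl]; simp
    · intro i _ hij
      rw [es_of, if_neg (Ne.symm hij)]; simp
    · intro h
      exact absurd (ht (Finset.mem_singleton_self j)) h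
  induction g using FreeGroup.induction_on with
  | C1 => exact ⟨∅, fun t _ => by simp⟩
  | of j => exact key j
  | inv_of j h =>
    obtain ⟨s, hs⟩ := h
    refine ⟨s, fun t ht => ?_⟩
    rw [map_inv, hs t ht, ← Finset.prod_inv_distrib]
    refine Finset.prod_congr rfl fun i _ => ?_
    rw [map_inv, toAdd_inv, zpow_neg]
  | mul x y hx hy =>
    obtain ⟨s, hs⟩ := hx
    obtain ⟨s', hs'⟩ := hy
    refine ⟨s ∪ s', fun t ht => ?_⟩
    rw [map_mul, hs t (Finset.union_subset_left ht), hs' t (Finset.union_subset_right ht),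
      ← Finset.prod_mul_distrib]
    refine Finset.prod_congr rfl fun i _ => ?_
    rw [map_mul, toAdd_mul, zpow_add]

/-- collapse all letters but `i` -/
noncomputable def col1 (i : ℕ) : FreeGroup ℕ →* FreeGroup ℕ :=
  FreeGroup.lift (fun j => if j = i then FreeGroup.of 0 else 1)

theorem col1_eq (i : ℕ) (g : FreeGroup ℕ) :
    col1 i g = (FreeGroup.of 0) ^ (Multiplicative.toAdd (es i g)) := by
  induction g using FreeGroup.induction_on with
  | C1 => simp
  | of j =>
    rw [es_of]
    unfold col1
    rw [FreeGroup.lift_apply_of]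
    by_cases h : j = i
    · rw [if_pos h, if_pos h]; simp
    · rw [if_neg h, if_neg h]; simp
  | inv_of j h => rw [map_inv, h, map_inv, toAdd_inv, zpow_neg]
  | mul x y hx hy => rw [map_mul, hx, hy, map_mul, toAdd_mul, zpow_add]

/-- the exponents of the identities in one letter -/
def ids (N : Subgroup (FreeGroup ℕ)) : AddSubgroup ℤ where
  carrier := {k | (FreeGroup.of (0 : ℕ)) ^ k ∈ N}
  zero_mem' := by simpa using N.one_mem
  add_mem' {a b} ha hb := by
    show _ ∈ N
    rw [zpow_add]; exact N.mul_mem ha hb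
  neg_mem' {a} ha := by
    show _ ∈ N
    rw [zpow_neg]; exact N.inv_mem ha

theorem mem_ids {N : Subgroup (FreeGroup ℕ)} {k : ℤ} :
    k ∈ ids N ↔ (FreeGroup.of (0 : ℕ)) ^ k ∈ N := Iff.rfl

theorem mem_iff_ids {N : Subgroup (FreeGroup ℕ)} (hN : FI N)
    (hc : ∀ x y : FreeGroup ℕ, x * y * x⁻¹ * y⁻¹ ∈ N) (g : FreeGroup ℕ) :
    g ∈ N ↔ ∀ i, Multiplicative.toAdd (es i g) ∈ ids N := by
  constructor
  · intro h i
    rw [mem_ids, ← col1_eq]
    exact hN _ _ h
  · intro h
    haveI := hN.normal
    let inst : CommGroup (FreeGroup ℕ ⧸ N) :=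
      { (inferInstance : Group (FreeGroup ℕ ⧸ N)) with
        mul_comm := by
          intro a b
          obtain ⟨x, rfl⟩ := QuotientGroup.mk_surjective a
          obtain ⟨y, rfl⟩ := QuotientGroup.mk_surjective b
          have h1 : (QuotientGroup.mk (x * y * x⁻¹ * y⁻¹) : FreeGroup ℕ ⧸ N) = 1 :=
            (QuotientGroup.eq_one_iff _).2 (hc x y)
          rw [QuotientGroup.mk_mul, QuotientGroup.mk_mul, QuotientGroup.mk_mul,
            QuotientGroup.mk_inv, QuotientGroup.mk_inv, mul_inv_eq_one, mul_inv_eq_iff_eq_mul] at h1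
          exact h1 }
    obtain ⟨s, hs⟩ := comm_formula (QuotientGroup.mk' N) g
    have h2 := hs s (Finset.Subset.refl s)
    rw [← QuotientGroup.eq_one_iff]
    have h3 : (QuotientGroup.mk' N) g = 1 := by
      rw [h2]
      refine Finset.prod_eq_one fun i _ => ?_
      rw [← map_zpow, QuotientGroup.mk'_apply, QuotientGroup.eq_one_iff]
      have h4 := hN (FreeGroup.map (fun _ => i)) _ (mem_ids.1 (h i))
      rwa [map_zpow, FreeGroup.map.of] at h4
    exact h3

instance countable_addSubgroup : Countable (AddSubgroup ℤ) := by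
  have hs : Function.Surjective (fun a : ℤ => AddSubgroup.closure ({a} : Set ℤ)) := by
    intro H
    obtain ⟨a, ha⟩ := Int.subgroup_cyclic H
    exact ⟨a, ha.symm⟩
  exact hs.countable

/-- the fully invariant subgroups containing all commutators are countable in number -/
theorem countable_abelian : {N : Subgroup (FreeGroup ℕ) | FI N ∧
    ∀ x y : FreeGroup ℕ, x * y * x⁻¹ * y⁻¹ ∈ N}.Countable := by
  refine Set.MapsTo.countable_of_injOn (f := ids) (t := Set.univ) (fun _ _ => Set.mem_univ _) ?_
    (Set.to_countable _)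
  intro N hN N' hN' h
  ext g
  rw [mem_iff_ids hN.1 hN.2, mem_iff_ids hN'.1 hN'.2]
  have h' : ids N = ids N' := h
  rw [h']

/-- the laws of a group -/
def laws (G : Type) [Group G] : Subgroup (FreeGroup ℕ) :=
  ⨅ f : ℕ → G, (FreeGroup.lift f).ker

theorem mem_laws {G : Type} [Group G] {g : FreeGroup ℕ} :
    g ∈ laws G ↔ ∀ f : ℕ → G, FreeGroup.lift f g = 1 := by
  unfold laws
  rw [Subgroup.mem_iInf]
  exact Iff.rfl

theorem laws_FI (G : Type) [Group G] : FI (laws G) := by
  intro φ x hx
  rw [mem_laws] at hx ⊢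
  intro f
  have e : (FreeGroup.lift f).comp φ = FreeGroup.lift (fun i => FreeGroup.lift f (φ (FreeGroup.of i))) := by
    ext i
    simp
  have := hx (fun i => FreeGroup.lift f (φ (FreeGroup.of i)))
  rw [← e] at this
  exact this

/-- **LG5b** -/
theorem sub_stmt (h : CoreStmt) : SubStmt := by
  obtain ⟨p, q, F, P, -, -, -, hF, hP, -, hhalt, U, hnon⟩ := h
  intro hdec
  apply hP
  obtain ⟨D, hD, hDe⟩ := ComputablePred.computable_iff.1 hdec
  rw [ComputablePred.computable_iff]
  refine ⟨fun n => D (ren (F n)), hD.comp (ren_primrec.to_comp.comp hF), ?_⟩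
  funext n
  have e : (D (ren (F n)) = true) ↔ {N : Subgroup (FreeGroup ℕ) |
      (∀ f : FreeGroup ℕ →* FreeGroup ℕ, ∀ x ∈ N, f x ∈ N) ∧
        FreeGroup.mk (ren (F n)) ∈ N}.Countable := by
    have := congrFun hDe (ren (F n))
    exact (iff_of_eq this).symm
  apply propext
  rw [e]
  constructor
  · intro hPn
    refine countable_abelian.mono ?_
    rintro N ⟨hN, hmem⟩
    refine ⟨hN, fun x y => ?_⟩
    have hall := (mem_ren hN (F n)).1 hmem
    haveI : N.Normal := FI.normal hN
    have hcomm := hhalt n hPn (FreeGroup ℕ ⧸ N) (fun W hW f => quot_law hN (hall W hW) f)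
    have h1 := hcomm (QuotientGroup.mk x) (QuotientGroup.mk y)
    rw [← QuotientGroup.eq_one_iff, QuotientGroup.mk_mul, QuotientGroup.mk_mul,
      QuotientGroup.mk_mul, QuotientGroup.mk_inv, QuotientGroup.mk_inv, mul_inv_eq_one,
      mul_inv_eq_iff_eq_mul]
    exact h1
  · intro hcount
    by_contra hPn
    have hex : ∀ S : Set ℕ, ∃ N : Subgroup (FreeGroup ℕ),
        (FI N ∧ FreeGroup.mk (ren (F n)) ∈ N) ∧ ∀ i : ℕ, FreeGroup.mk (U i) ∈ N ↔ i ∈ S := by
      intro S
      obtain ⟨G, instG, hlaw, -, -, hU⟩ := hnon n hPn S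
      refine ⟨laws G, ⟨laws_FI G, ?_⟩, fun i => ?_⟩
      · rw [mem_ren (laws_FI G)]
        intro W hW
        rw [mem_laws]
        exact hlaw W hW
      · rw [mem_laws]
        exact hU i
    choose N hN hNU using hex
    have hinj : Function.Injective (fun S : Set ℕ => (⟨N S, hN S⟩ :
        {N : Subgroup (FreeGroup ℕ) | (∀ f : FreeGroup ℕ →* FreeGroup ℕ, ∀ x ∈ N, f x ∈ N) ∧
        FreeGroup.mk (ren (F n)) ∈ N})) := by
      intro S S' hSS
      have h1 : N S = N S' := congrArg Subtype.val hSS
      ext i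
      rw [← hNU S i, ← hNU S' i, h1]
    haveI := hcount.to_subtype
    have hc : Countable (Set ℕ) := hinj.countable
    obtain ⟨f, hf⟩ := hc.exists_injective_nat
    exact Function.cantor_injective f hf

/-- the frozen statement S01696, from the core -/
theorem S01696_of_core (h : CoreStmt) :
    ¬ (ComputablePred (fun L : List (ℕ × Bool) =>
      {N : Subgroup (FreeGroup ℕ) |
        (∀ f : FreeGroup ℕ →* FreeGroup ℕ, ∀ x ∈ N, f x ∈ N) ∧
          FreeGroup.mk L ∈ N}.Countable)) := sub_stmt h

end Pool.Agent.Y578.MON
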